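import Pool.Agent.Helper93.T53.StD

/-!
# Project T53, module LIFP: lifting solutions of the relations to the integers
-/

set_option autoImplicit false

namespace Pool.Agent.Helper40.T53

open Pool.Agent.Helper78.W3 (tr Fn3 S3Trm)
open Pool.Agent.Helper93.T53 (RelT qT solT TSol TLifp)

private abbrev Pt (r s : ℕ) : Type := ZMod (3 ^ r) × ZMod (3 ^ s)

private def mu {r s : ℕ} (a b c d : ℤ) (p : Pt r s) : Pt r s :=
  tr a b c d (fun x y => ((x, y) : Pt r s)) p.1 p.2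

private theorem mu_mul (hTrm : S3Trm) {r s : ℕ} {a b c d a' b' c' d' : ℤ} (h1 : ¬ 3 ∣ a)
    (h2 : ¬ 3 ∣ d) (h3 : ¬ 3 ∣ a') (h4 : ¬ 3 ∣ d') (p : Pt r s) :
    mu a' b' c' d' (mu a b c d p) =
      mu (a * a' + 9 * b * c') (a * b' + b * d') (c * a' + d * c') (9 * c * b' + d * d') p := by
  have h := congrFun (congrFun ((hTrm (Pt r s) r s (fun x y => (x, y))).1 a b c d a' b' c' d'
    h1 h2 h3 h4) p.1) p.2
  exact h

private theorem mu_one (hTrm : S3Trm) {r s : ℕ} (p : Pt r s) : mu 1 0 0 1 p = p := by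
  have h := congrFun (congrFun (hTrm (Pt r s) r s (fun x y => (x, y))).2.1 p.1) p.2
  exact h

private theorem mu_scl (hTrm : S3Trm) {r s : ℕ} (k a b c d : ℤ) (hk : ¬ 3 ∣ k) (ha : ¬ 3 ∣ a)
    (hd : ¬ 3 ∣ d) (p : Pt r s) : mu (k * a) (k * b) (k * c) (k * d) p = mu a b c d p := by
  have h := congrFun (congrFun ((hTrm (Pt r s) r s (fun x y => (x, y))).2.2 k a b c d
    hk ha hd) p.1) p.2
  exact h

private theorem mu_scl1 (hTrm : S3Trm) {r s : ℕ} (k : ℤ) (hk : ¬ 3 ∣ k) (p : Pt r s) :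
    mu k 0 0 k p = p := by
  have h := mu_scl hTrm k 1 0 0 1 hk (by norm_num) (by norm_num) p
  rw [mul_one, mul_zero] at h
  rw [h, mu_one hTrm]

private theorem mu_inv (hTrm : S3Trm) {r s : ℕ} {a b c d : ℤ} (h1 : ¬ 3 ∣ a) (h2 : ¬ 3 ∣ d)
    (h : ¬ 3 ∣ a * d - 9 * b * c) (p : Pt r s) : mu d (-b) (-c) a (mu a b c d p) = p := by
  rw [mu_mul hTrm h1 h2 h2 h1]
  have e1 : a * d + 9 * b * -c = a * d - 9 * b * c := by ring
  have e2 : a * -b + b * a = 0 := by ring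
  have e3 : c * d + d * -c = 0 := by ring
  have e4 : 9 * c * -b + d * a = a * d - 9 * b * c := by ring
  rw [e1, e2, e3, e4, mu_scl1 hTrm _ h]

private theorem mu_bij (hTrm : S3Trm) {r s : ℕ} {a b c d : ℤ} (h1 : ¬ 3 ∣ a) (h2 : ¬ 3 ∣ d)
    (h : ¬ 3 ∣ a * d - 9 * b * c) :
    Function.Bijective (mu a b c d : Pt r s → Pt r s) := by
  refine Function.bijective_iff_has_inverse.2 ⟨mu d (-b) (-c) a, fun p => mu_inv hTrm h1 h2 h p,
    fun p => ?_⟩
  have := mu_inv hTrm (r := r) (s := s) (a := d) (b := -b) (c := -c) (d := a) h2 h1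
    (by intro h'; apply h; have e : a * d - 9 * b * c = d * a - 9 * -b * -c := by ring
        rw [e]; exact h') p
  rw [neg_neg, neg_neg] at this
  exact this

private instance fin_pt (r s : ℕ) : Fintype (Pt r s) := by
  have : NeZero (3 ^ r) := ⟨by positivity⟩
  have : NeZero (3 ^ s) := ⟨by positivity⟩
  infer_instance

private def mA {r s : ℕ} : Pt r s → Pt r s := mu 1 1 0 1
private def mM1 {r s : ℕ} : Pt r s → Pt r s := mu 5 1 5 10
private def mM2 {r s : ℕ} : Pt r s → Pt r s := mu 65 12 15 25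
private def mM3 {r s : ℕ} : Pt r s → Pt r s := mu 70 (-13) 15 (-25)
private def mM4 {r s : ℕ} : Pt r s → Pt r s := mu 10 1 5 5
private def mS1 {r s : ℕ} : Pt r s → Pt r s := mu 20 3 (-15) (-20)
private def mS2 {r s : ℕ} : Pt r s → Pt r s := mu 20 (-3) 15 (-20)
private def mS3 {r s : ℕ} : Pt r s → Pt r s := mu 20 (-9) 5 (-20)
private def mS4 {r s : ℕ} : Pt r s → Pt r s := mu 25 (-14) 5 (-25)
private def mB {r s : ℕ} : Pt r s → Pt r s := mu 1 0 5 1
private def mN2 {r s : ℕ} : Pt r s → Pt r s := mu 25 (-12) (-15) 65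

private theorem bA (hTrm : S3Trm) {r s : ℕ} : Function.Bijective (mA : Pt r s → Pt r s) :=
  mu_bij hTrm (by norm_num) (by norm_num) (by norm_num)
private theorem bM1 (hTrm : S3Trm) {r s : ℕ} : Function.Bijective (mM1 : Pt r s → Pt r s) :=
  mu_bij hTrm (by norm_num) (by norm_num) (by norm_num)
private theorem bM2 (hTrm : S3Trm) {r s : ℕ} : Function.Bijective (mM2 : Pt r s → Pt r s) :=
  mu_bij hTrm (by norm_num) (by norm_num) (by norm_num)
private theorem bM3 (hTrm : S3Trm) {r s : ℕ} : Function.Bijective (mM3 : Pt r s → Pt r s) :=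
  mu_bij hTrm (by norm_num) (by norm_num) (by norm_num)
private theorem bM4 (hTrm : S3Trm) {r s : ℕ} : Function.Bijective (mM4 : Pt r s → Pt r s) :=
  mu_bij hTrm (by norm_num) (by norm_num) (by norm_num)
private theorem bS1 (hTrm : S3Trm) {r s : ℕ} : Function.Bijective (mS1 : Pt r s → Pt r s) :=
  mu_bij hTrm (by norm_num) (by norm_num) (by norm_num)
private theorem bS2 (hTrm : S3Trm) {r s : ℕ} : Function.Bijective (mS2 : Pt r s → Pt r s) :=
  mu_bij hTrm (by norm_num) (by norm_num) (by norm_num)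
private theorem bS3 (hTrm : S3Trm) {r s : ℕ} : Function.Bijective (mS3 : Pt r s → Pt r s) :=
  mu_bij hTrm (by norm_num) (by norm_num) (by norm_num)
private theorem bS4 (hTrm : S3Trm) {r s : ℕ} : Function.Bijective (mS4 : Pt r s → Pt r s) :=
  mu_bij hTrm (by norm_num) (by norm_num) (by norm_num)
private theorem bN2 (hTrm : S3Trm) {r s : ℕ} : Function.Bijective (mN2 : Pt r s → Pt r s) :=
  mu_bij hTrm (by norm_num) (by norm_num) (by norm_num)

private theorem mBM (hTrm : S3Trm) {r s : ℕ} (p : Pt r s) :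
    mM4 (mM3 (mN2 (mM1 p))) = mB p := by
  have h := mu_scl hTrm (-25) 1 0 5 1 (by norm_num) (by norm_num) (by norm_num) p
  unfold mM4 mM3 mN2 mM1 mB
  rw [← h, mu_mul hTrm (a := 5) (by norm_num) (by norm_num) (by norm_num) (by norm_num)]
  norm_num
  rw [mu_mul hTrm (a := -10) (by norm_num) (by norm_num) (by norm_num) (by norm_num)]
  norm_num
  rw [mu_mul hTrm (a := -25) (by norm_num) (by norm_num) (by norm_num) (by norm_num)]
  norm_num

private theorem mMN (hTrm : S3Trm) {r s : ℕ} (p : Pt r s) : mM2 (mN2 p) = p := by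
  have h := mu_inv hTrm (a := 25) (b := -12) (c := -15) (d := 65) (by norm_num) (by norm_num)
    (by norm_num) p
  unfold mM2 mN2
  rw [neg_neg, neg_neg] at h
  exact h

/-- the defect of the relation -/
private def cob (r s : ℕ) : (Fin 9 → Pt r s → ℤ) →+ (Pt r s → ℤ) where
  toFun H := fun p => (H 0 (mA p) - H 0 p) + (H 1 p - H 1 (mM1 p)) + (H 2 p - H 2 (mM2 p)) +
    (H 3 p - H 3 (mM3 p)) + (H 4 p - H 4 (mM4 p)) + (H 5 p - H 5 (mS1 p)) +
    (H 6 p - H 6 (mS2 p)) + (H 7 p - H 7 (mS3 p)) + (H 8 p - H 8 (mS4 p))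
  map_zero' := by funext p; simp
  map_add' H K := by funext p; simp only [Pi.add_apply]; ring

private noncomputable def dl {r s : ℕ} (p : Pt r s) : Pt r s → ℤ := by
  classical exact Pi.single p 1

private theorem dl_app {r s : ℕ} (p q : Pt r s) [Decidable (q = p)] :
    dl p q = if q = p then 1 else 0 := by
  classical
  unfold dl
  rw [Pi.single_apply]
  congr

private def Eqp {r s : ℕ} (p q : Pt r s) : Prop := dl p - dl q ∈ (cob r s).range

private theorem Eqp.rfl' {r s : ℕ} (p : Pt r s) : Eqp p p := by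
  unfold Eqp; rw [sub_self]; exact zero_mem _

private theorem Eqp.sym {r s : ℕ} {p q : Pt r s} (h : Eqp p q) : Eqp q p := by
  unfold Eqp at *; have := neg_mem h; rwa [neg_sub] at this

private theorem Eqp.trs {r s : ℕ} {p q t : Pt r s} (h : Eqp p q) (h' : Eqp q t) : Eqp p t := by
  unfold Eqp at *; have := add_mem h h'; rwa [sub_add_sub_cancel] at this

private theorem dl_inj {r s : ℕ} {f : Pt r s → Pt r s} (hf : Function.Injective f) (p q : Pt r s) :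
    dl (f p) (f q) = dl p q := by
  classical
  rw [dl_app, dl_app]
  simp [hf.eq_iff]

private theorem eA (hTrm : S3Trm) {r s : ℕ} (p : Pt r s) : Eqp p (mA p) := by
  refine ⟨![dl (mA p), 0, 0, 0, 0, 0, 0, 0, 0], ?_⟩
  funext q
  have h1 := dl_inj (bA hTrm).1 p q
  simp [cob, h1]

private theorem eM1 (hTrm : S3Trm) {r s : ℕ} (p : Pt r s) : Eqp (mM1 p) p := by
  refine ⟨![0, dl (mM1 p), 0, 0, 0, 0, 0, 0, 0], ?_⟩
  funext q
  have h1 := dl_inj (bM1 hTrm).1 p q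
  simp [cob, h1]

private theorem eM2 (hTrm : S3Trm) {r s : ℕ} (p : Pt r s) : Eqp (mM2 p) p := by
  refine ⟨![0, 0, dl (mM2 p), 0, 0, 0, 0, 0, 0], ?_⟩
  funext q
  have h1 := dl_inj (bM2 hTrm).1 p q
  simp [cob, h1]

private theorem eM3 (hTrm : S3Trm) {r s : ℕ} (p : Pt r s) : Eqp (mM3 p) p := by
  refine ⟨![0, 0, 0, dl (mM3 p), 0, 0, 0, 0, 0], ?_⟩
  funext q
  have h1 := dl_inj (bM3 hTrm).1 p q
  simp [cob, h1]

private theorem eM4 (hTrm : S3Trm) {r s : ℕ} (p : Pt r s) : Eqp (mM4 p) p := by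
  refine ⟨![0, 0, 0, 0, dl (mM4 p), 0, 0, 0, 0], ?_⟩
  funext q
  have h1 := dl_inj (bM4 hTrm).1 p q
  simp [cob, h1]

private theorem eB (hTrm : S3Trm) {r s : ℕ} (p : Pt r s) : Eqp (mB p) p := by
  rw [← mBM hTrm p]
  refine (eM4 hTrm _).trs ((eM3 hTrm _).trs ?_)
  have h := eM2 hTrm (mN2 (mM1 p))
  rw [mMN hTrm] at h
  exact h.sym.trs (eM1 hTrm p)

private theorem eqp_y0 (hTrm : S3Trm) {r s : ℕ} : ∀ (n : ℕ),
    Eqp ((0, ((5 * n : ℕ) : ZMod (3 ^ s))) : Pt r s) (0, 0) := by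
  intro n
  induction n with
  | zero => rw [mul_zero, Nat.cast_zero]; exact Eqp.rfl' _
  | succ n ih =>
    have h := eB hTrm ((0, ((5 * n : ℕ) : ZMod (3 ^ s))) : Pt r s)
    have e : mB ((0, ((5 * n : ℕ) : ZMod (3 ^ s))) : Pt r s) =
        (0, ((5 * (n + 1) : ℕ) : ZMod (3 ^ s))) := by
      have h1 : ((1 : ZMod (3 ^ s)))⁻¹ = 1 := ZMod.inv_eq_of_mul_eq_one _ _ _ (by ring)
      simp [mB, mu, tr, h1]
      ring
    rw [e] at h
    exact h.trs ih

private theorem eqp_y (hTrm : S3Trm) {r s : ℕ} (y : ZMod (3 ^ s)) :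
    Eqp ((0, y) : Pt r s) (0, 0) := by
  have : NeZero (3 ^ s) := ⟨by positivity⟩
  have hu : IsUnit ((5 : ℕ) : ZMod (3 ^ s)) := by
    rw [ZMod.isUnit_iff_coprime]
    exact Nat.Coprime.pow_right s (by norm_num)
  obtain ⟨u, hu⟩ := hu
  have h := eqp_y0 hTrm (r := r) (s := s) (((u⁻¹ : (ZMod (3 ^ s))ˣ) : ZMod (3 ^ s)) * y).val
  have e : ((5 * (((u⁻¹ : (ZMod (3 ^ s))ˣ) : ZMod (3 ^ s)) * y).val : ℕ) : ZMod (3 ^ s)) = y := by
    rw [Nat.cast_mul, ZMod.natCast_zmod_val, ← hu, ← mul_assoc, Units.mul_inv, one_mul]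
  rw [e] at h
  exact h

private theorem eqp_x (hTrm : S3Trm) {r s : ℕ} : ∀ (n : ℕ) (x : ZMod (3 ^ r)) (y : ZMod (3 ^ s)),
    x + n = 0 → Eqp ((x, y) : Pt r s) (0, 0) := by
  intro n
  induction n with
  | zero =>
    intro x y h
    rw [Nat.cast_zero, add_zero] at h
    subst h
    exact eqp_y hTrm (r := r) (s := s) y
  | succ n ih =>
    intro x y h
    have h1 := eA hTrm ((x, y) : Pt r s)
    refine h1.trs ?_
    have h2 : (mA ((x, y) : Pt r s)).1 = x + 1 := by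
      have h1 : ((1 : ZMod (3 ^ r)))⁻¹ = 1 := ZMod.inv_eq_of_mul_eq_one _ _ _ (by ring)
      simp [mA, mu, tr, h1, add_comm]
    have h3 : mA ((x, y) : Pt r s) = (x + 1, (mA ((x, y) : Pt r s)).2) := by
      rw [← h2]
    rw [h3]
    apply ih
    rw [← h]
    push_cast
    ring

private theorem eqp_all (hTrm : S3Trm) {r s : ℕ} (p : Pt r s) : Eqp p (0, 0) := by
  have : NeZero (3 ^ r) := ⟨by positivity⟩
  exact eqp_x hTrm (-p.1).val p.1 p.2 (by rw [ZMod.natCast_zmod_val]; ring)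

private theorem mem_of_sum (hTrm : S3Trm) {r s : ℕ} (E : Pt r s → ℤ) (hE : ∑ p, E p = 0) :
    E ∈ (cob r s).range := by
  classical
  have h1 : E = ∑ p, E p • (dl p - dl (0, 0)) := by
    have h2 : ∑ p, E p • (dl p - dl ((0, 0) : Pt r s)) =
        ∑ p, E p • dl p - (∑ p, E p) • dl ((0, 0) : Pt r s) := by
      rw [Finset.sum_smul, ← Finset.sum_sub_distrib]
      exact Finset.sum_congr rfl fun p _ => smul_sub _ _ _
    rw [h2, hE, zero_smul, sub_zero]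
    funext q
    rw [Finset.sum_apply]
    simp [dl_app]
  rw [h1]
  exact sum_mem fun p _ => zsmul_mem (eqp_all hTrm p) _

private theorem sum_cob (hTrm : S3Trm) {r s : ℕ} (H : Fin 9 → Pt r s → ℤ) :
    ∑ p, cob r s H p = 0 := by
  have h0 := (bA hTrm (r := r) (s := s)).sum_comp (H 0)
  have h1 := (bM1 hTrm (r := r) (s := s)).sum_comp (H 1)
  have h2 := (bM2 hTrm (r := r) (s := s)).sum_comp (H 2)
  have h3 := (bM3 hTrm (r := r) (s := s)).sum_comp (H 3)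
  have h4 := (bM4 hTrm (r := r) (s := s)).sum_comp (H 4)
  have h5 := (bS1 hTrm (r := r) (s := s)).sum_comp (H 5)
  have h6 := (bS2 hTrm (r := r) (s := s)).sum_comp (H 6)
  have h7 := (bS3 hTrm (r := r) (s := s)).sum_comp (H 7)
  have h8 := (bS4 hTrm (r := r) (s := s)).sum_comp (H 8)
  show ∑ p, ((H 0 (mA p) - H 0 p) + (H 1 p - H 1 (mM1 p)) + (H 2 p - H 2 (mM2 p)) +
    (H 3 p - H 3 (mM3 p)) + (H 4 p - H 4 (mM4 p)) + (H 5 p - H 5 (mS1 p)) +
    (H 6 p - H 6 (mS2 p)) + (H 7 p - H 7 (mS3 p)) + (H 8 p - H 8 (mS4 p))) = 0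
  simp only [Finset.sum_sub_distrib, Finset.sum_add_distrib]
  rw [h0, h1, h2, h3, h4, h5, h6, h7, h8]
  ring

private def sg : Fin 9 → ZMod 3 := ![1, 1, 1, 1, 1, -1, -1, -1, -1]

theorem hLifp (ht : S3Trm) (hs : TSol) : TLifp := by
  intro r s f hf
  obtain ⟨r5, r6, r7, r8, r9⟩ := hf
  let L : Fin 9 → Pt r s → ℤ := fun i p => ((sg i * f i p.1 p.2).val : ℤ)
  have hL : ∀ i p, ((L i p : ℤ) : ZMod 3) = sg i * f i p.1 p.2 := by
    intro i p
    show ((((sg i * f i p.1 p.2).val : ℤ)) : ZMod 3) = _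
    push_cast
    exact ZMod.natCast_zmod_val _
  have h3 : (3 : ZMod 3) = 0 := by decide
  have g0 : sg 0 = 1 := rfl
  have g1 : sg 1 = 1 := rfl
  have g2 : sg 2 = 1 := rfl
  have g3 : sg 3 = 1 := rfl
  have g4 : sg 4 = 1 := rfl
  have g5 : sg 5 = -1 := rfl
  have g6 : sg 6 = -1 := rfl
  have g7 : sg 7 = -1 := rfl
  have g8 : sg 8 = -1 := rfl
  have q5 : ∀ p : Pt r s, -1 * f 5 p.1 p.2 - -1 * f 5 (mS1 p).1 (mS1 p).2 = f 5 p.1 p.2 := by
    intro p
    have h : f 5 p.1 p.2 + f 5 (mS1 p).1 (mS1 p).2 = 0 := r5 p.1 p.2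
    linear_combination h - f 5 p.1 p.2 * h3
  have q6 : ∀ p : Pt r s, -1 * f 6 p.1 p.2 - -1 * f 6 (mS2 p).1 (mS2 p).2 = f 6 p.1 p.2 := by
    intro p
    have h : f 6 p.1 p.2 + f 6 (mS2 p).1 (mS2 p).2 = 0 := r6 p.1 p.2
    linear_combination h - f 6 p.1 p.2 * h3
  have q7 : ∀ p : Pt r s, -1 * f 7 p.1 p.2 - -1 * f 7 (mS3 p).1 (mS3 p).2 = f 7 p.1 p.2 := by
    intro p
    have h : f 7 p.1 p.2 + f 7 (mS3 p).1 (mS3 p).2 = 0 := r7 p.1 p.2
    linear_combination h - f 7 p.1 p.2 * h3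
  have q8 : ∀ p : Pt r s, -1 * f 8 p.1 p.2 - -1 * f 8 (mS4 p).1 (mS4 p).2 = f 8 p.1 p.2 := by
    intro p
    have h : f 8 p.1 p.2 + f 8 (mS4 p).1 (mS4 p).2 = 0 := r8 p.1 p.2
    linear_combination h - f 8 p.1 p.2 * h3
  have hdv : ∀ p, (3 : ℤ) ∣ cob r s L p := by
    intro p
    apply (ZMod.intCast_zmod_eq_zero_iff_dvd _ 3).1
    show (((L 0 (mA p) - L 0 p) + (L 1 p - L 1 (mM1 p)) + (L 2 p - L 2 (mM2 p)) +
      (L 3 p - L 3 (mM3 p)) + (L 4 p - L 4 (mM4 p)) + (L 5 p - L 5 (mS1 p)) +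
      (L 6 p - L 6 (mS2 p)) + (L 7 p - L 7 (mS3 p)) + (L 8 p - L 8 (mS4 p)) : ℤ) : ZMod 3) = 0
    push_cast
    simp only [hL, g0, g1, g2, g3, g4, g5, g6, g7, g8]
    rw [q5, q6, q7, q8]
    simp only [one_mul]
    exact r9 p.1 p.2
  choose D hD using hdv
  have hsum : ∑ p, D p = 0 := by
    have h := sum_cob ht L
    rw [Finset.sum_congr rfl fun p _ => hD p, ← Finset.mul_sum] at h
    omega
  obtain ⟨H, hH⟩ := mem_of_sum ht D hsum
  let F : Fin 9 → Pt r s → ℤ := fun i p => L i p - 3 * H i p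
  have hF : ∀ p, (F 0 (mA p) - F 0 p) + (F 1 p - F 1 (mM1 p)) + (F 2 p - F 2 (mM2 p)) +
      (F 3 p - F 3 (mM3 p)) + (F 4 p - F 4 (mM4 p)) + (F 5 p - F 5 (mS1 p)) +
      (F 6 p - F 6 (mS2 p)) + (F 7 p - F 7 (mS3 p)) + (F 8 p - F 8 (mS4 p)) = 0 := by
    intro p
    have h1 := hD p
    have h2 := congrFun hH p
    have e1 : cob r s L p = (L 0 (mA p) - L 0 p) + (L 1 p - L 1 (mM1 p)) + (L 2 p - L 2 (mM2 p)) +
      (L 3 p - L 3 (mM3 p)) + (L 4 p - L 4 (mM4 p)) + (L 5 p - L 5 (mS1 p)) +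
      (L 6 p - L 6 (mS2 p)) + (L 7 p - L 7 (mS3 p)) + (L 8 p - L 8 (mS4 p)) := rfl
    have e2 : cob r s H p = (H 0 (mA p) - H 0 p) + (H 1 p - H 1 (mM1 p)) + (H 2 p - H 2 (mM2 p)) +
      (H 3 p - H 3 (mM3 p)) + (H 4 p - H 4 (mM4 p)) + (H 5 p - H 5 (mS1 p)) +
      (H 6 p - H 6 (mS2 p)) + (H 7 p - H 7 (mS3 p)) + (H 8 p - H 8 (mS4 p)) := rfl
    rw [e1] at h1
    rw [e2] at h2
    simp only [F]
    linear_combination h1 - 3 * h2
  let ff : Fin 5 → ZMod (3 ^ r) → ZMod (3 ^ s) → ℤ :=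
    ![fun x y => F 0 (x, y), fun x y => F 1 (x, y), fun x y => F 2 (x, y), fun x y => F 3 (x, y),
      fun x y => F 4 (x, y)]
  let bb : Fin 4 → ZMod (3 ^ r) → ZMod (3 ^ s) → ℤ :=
    ![fun x y => F 5 (x, y), fun x y => F 6 (x, y), fun x y => F 7 (x, y), fun x y => F 8 (x, y)]
  have hR := hs ℤ _ r s ff bb (fun x y => hF (x, y))
  refine ⟨_, hR, ?_⟩
  have lin : ∀ (i : Fin 9) (x : ZMod (3 ^ r)) (y : ZMod (3 ^ s)), sg i = 1 →
      ((L i (x, y) - 3 * H i (x, y) : ℤ) : ZMod 3) = f i x y := by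
    intro i x y hi
    push_cast
    rw [hL, hi, h3, zero_mul, sub_zero, one_mul]
  intro i x y
  fin_cases i
  · exact lin 0 x y g0
  · exact lin 1 x y g1
  · exact lin 2 x y g2
  · exact lin 3 x y g3
  · exact lin 4 x y g4
  · show (((L 5 (x, y) - 3 * H 5 (x, y)) - (L 5 (mS1 (x, y)) - 3 * H 5 (mS1 (x, y))) : ℤ) :
      ZMod 3) = f 5 x y
    push_cast
    rw [hL, hL, g5, h3]
    have h := q5 (x, y)
    linear_combination h
  · show (((L 6 (x, y) - 3 * H 6 (x, y)) - (L 6 (mS2 (x, y)) - 3 * H 6 (mS2 (x, y))) : ℤ) :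
      ZMod 3) = f 6 x y
    push_cast
    rw [hL, hL, g6, h3]
    have h := q6 (x, y)
    linear_combination h
  · show (((L 7 (x, y) - 3 * H 7 (x, y)) - (L 7 (mS3 (x, y)) - 3 * H 7 (mS3 (x, y))) : ℤ) :
      ZMod 3) = f 7 x y
    push_cast
    rw [hL, hL, g7, h3]
    have h := q7 (x, y)
    linear_combination h
  · show (((L 8 (x, y) - 3 * H 8 (x, y)) - (L 8 (mS4 (x, y)) - 3 * H 8 (mS4 (x, y))) : ℤ) :
      ZMod 3) = f 8 x y
    push_cast
    rw [hL, hL, g8, h3]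
    have h := q8 (x, y)
    linear_combination h

end Pool.Agent.Helper40.T53
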